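import Mathlib
import Pool.Agent.H5.M81db1eDefs
import Pool.Agent.H5.M81db1eProof

set_option autoImplicit false

namespace Pool.Agent.Results.MP_81db1e_al.Disproof

open Pool.Agent.H5.M81db1e

universe u v w

/-- **Main result.**  For every field `k` of characteristic zero there are a `k`-algebra `R` and
two families `r 0, r 1` of two elements of `R` such that each `r j` is linearly dependent in some
finite-dimensional representation of `R`, but whenever `R` embeds into an algebra `A` over a field
extension `F` of `k` (no unit, no finite-dimensionality required), one of the families is linearly
independent in `A`. -/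
theorem result (k : Type u) [Field k] [CharZero k] :
    ∃ (R : Type u) (_ : Ring R) (_ : Algebra k R) (r : Fin 2 → Fin 2 → R),
      (∀ j, DependentInSomeRep k R (r j)) ∧
      ∀ (F : Type v) [Field F] [Algebra k F] (A : Type w) [NonUnitalRing A] [Module F A]
        [IsScalarTower F A A] [SMulCommClass F A A] (φ : R →ₙ+* A),
        Function.Injective φ → (∀ (c : k) (x : R), φ (c • x) = algebraMap k F c • φ x) →
        ∃ j, LinearIndependent F (fun i => φ (r j i)) :=
  main k

end Pool.Agent.Results.MP_81db1e_al.Disproof
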